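import Pool.Agent.Y782.TC.Tail

set_option autoImplicit false
open MeasureTheory
open scoped ENNReal

namespace Pool.Agent.Results.MP_69ceda_pr.MomentThreshold

/-- The coding radius of `F` at the labelling `y` of `ℤ^d`: the least `r` such that
`F y' 0 = F y 0` for every labelling `y'` which agrees with `y` on the ball
`{u | |u i| ≤ r for all i}`; it is `⊤` if there is no such `r`. -/
noncomputable def codingRadius {d : ℕ} {T : Type}
    (F : ((Fin d → ℤ) → T) → (Fin d → ℤ) → Fin 3) (y : (Fin d → ℤ) → T) : ℝ≥0∞ :=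
  ⨅ (r : ℕ) (_ : ∀ y' : (Fin d → ℤ) → T,
    (∀ u : Fin d → ℤ, (∀ i, |u i| ≤ (r : ℤ)) → y' u = y u) → F y' 0 = F y 0), (r : ℝ≥0∞)

/-- `x` is a proper 3-colouring of the graph `ℤ^d`. -/
def Proper {d : ℕ} (x : (Fin d → ℤ) → Fin 3) : Prop :=
  ∀ u v : Fin d → ℤ, ∑ i, |u i - v i| = 1 → x u ≠ x v

/-- `α` is admissible in `ℤ^d`: for some probability space `(T, ν)` of labels there is a
measurable map `F`, which almost surely commutes with every translation, such that for i.i.d.
labels `y` of law `ν` the field `F y` is almost surely a proper 3-colouring, the coding radius is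
almost surely finite and it has a finite moment of order `α`. -/
def Admissible (d : ℕ) (α : ℝ) : Prop :=
  ∃ (T : Type) (_ : MeasurableSpace T) (ν : Measure T) (_ : IsProbabilityMeasure ν)
    (F : ((Fin d → ℤ) → T) → (Fin d → ℤ) → Fin 3),
    Measurable F ∧
    (∀ v : Fin d → ℤ, ∀ᵐ y ∂(Measure.infinitePi fun _ : Fin d → ℤ => ν),
      F (fun u => y (u + v)) = fun u => F y (u + v)) ∧
    (∀ᵐ y ∂(Measure.infinitePi fun _ : Fin d → ℤ => ν), Proper (F y)) ∧
    (∀ᵐ y ∂(Measure.infinitePi fun _ : Fin d → ℤ => ν), codingRadius F y < ⊤) ∧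
    ∫⁻ y, codingRadius F y ^ α ∂(Measure.infinitePi fun _ : Fin d → ℤ => ν) < ⊤

/-- The strong form of admissibility: the labels are uniform on `[0,1]`, the map `F` commutes with
every translation for every labelling, and the coding radius is almost surely at most a
measurable integer valued `N` with a finite moment of order `α`. -/
def UniformlyAdmissible (d : ℕ) (α : ℝ) : Prop :=
  ∃ F : ((Fin d → ℤ) → unitInterval) → (Fin d → ℤ) → Fin 3,
    Measurable F ∧
    (∀ (y : (Fin d → ℤ) → unitInterval) (v : Fin d → ℤ),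
      F (fun u => y (u + v)) = fun u => F y (u + v)) ∧
    (∀ᵐ y ∂(Measure.infinitePi fun _ : Fin d → ℤ => (volume : Measure unitInterval)),
      Proper (F y)) ∧
    ∃ N : ((Fin d → ℤ) → unitInterval) → ℕ, Measurable N ∧
      (∀ᵐ y ∂(Measure.infinitePi fun _ : Fin d → ℤ => (volume : Measure unitInterval)),
        codingRadius F y ≤ N y) ∧
      ∫⁻ y, (N y : ℝ≥0∞) ^ α
        ∂(Measure.infinitePi fun _ : Fin d → ℤ => (volume : Measure unitInterval)) < ⊤

lemma uniformly_of_lt {d : ℕ} (hd : 2 ≤ d) {α : ℝ} (h0 : 0 < α) (h1 : α < 1) :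
    UniformlyAdmissible d α := by
  obtain ⟨e, rfl⟩ : ∃ e, d = e + 1 := ⟨d - 1, by omega⟩
  exact Pool.Agent.Y782.TC.exists_col e h0 h1

lemma admissible_of_uniformly {d : ℕ} {α : ℝ} (h0 : 0 < α) (h : UniformlyAdmissible d α) :
    Admissible d α := by
  obtain ⟨F, hF, hsh, hpr, N, hN, hle, hmom⟩ := h
  refine ⟨unitInterval, inferInstance, volume, inferInstance, F, hF,
    fun v => Filter.Eventually.of_forall fun y => hsh y v, hpr, ?_, ?_⟩
  · filter_upwards [hle] with y hy
    exact hy.trans_lt (ENNReal.natCast_lt_top _)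
  · refine lt_of_le_of_lt (lintegral_mono_ae ?_) hmom
    filter_upwards [hle] with y hy
    exact ENNReal.rpow_le_rpow hy h0.le

lemma lt_one_of_admissible {d : ℕ} (hd : 2 ≤ d) {α : ℝ} (h : Admissible d α) : α < 1 := by
  obtain ⟨T, iT, ν, iν, F, hF, hsh, hpr, -, hmom⟩ := h
  by_contra hα
  push Not at hα
  have h12 : (⟨0, by omega⟩ : Fin d) ≠ ⟨1, by omega⟩ := by
    intro h
    have := congrArg Fin.val h
    simp at this
  exact Pool.Agent.Y782.TC.no_moment h12 hF hsh hpr hα hmom

/-- For every `d ≥ 2` the exponents `α > 0` for which some finitary factor of i.i.d. 3-colouring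
of `ℤ^d` has a coding radius with finite `α`-moment are exactly the `α < 1`; the supremum is `1`
and it is not attained. -/
theorem result (d : ℕ) (hd : 2 ≤ d) :
    (∀ α : ℝ, 0 < α → (Admissible d α ↔ α < 1) ∧ (UniformlyAdmissible d α ↔ α < 1)) ∧
      IsLUB {α : ℝ | 0 < α ∧ Admissible d α} 1 ∧ ¬ Admissible d 1 := by
  have key : ∀ α : ℝ, 0 < α → (Admissible d α ↔ α < 1) := fun α h0 =>
    ⟨lt_one_of_admissible hd, fun h1 => admissible_of_uniformly h0 (uniformly_of_lt hd h0 h1)⟩
  refine ⟨fun α h0 => ⟨key α h0, fun h => ?_, uniformly_of_lt hd h0⟩, ⟨?_, ?_⟩, ?_⟩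
  · exact lt_one_of_admissible hd (admissible_of_uniformly h0 h)
  · rintro α ⟨_, h⟩
    exact (lt_one_of_admissible hd h).le
  · intro b hb
    by_contra hlt
    push Not at hlt
    set α : ℝ := max ((b + 1) / 2) (1 / 2) with hα
    have h1 : α < 1 := max_lt (by linarith) (by norm_num)
    have h0 : 0 < α := lt_of_lt_of_le (by norm_num) (le_max_right _ _)
    have h2 : α ≤ b := hb ⟨h0, (key α h0).2 h1⟩
    have h3 : (b + 1) / 2 ≤ α := le_max_left _ _
    linarith
  · intro h
    exact absurd (lt_one_of_admissible hd h) (lt_irrefl 1)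

end Pool.Agent.Results.MP_69ceda_pr.MomentThreshold
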